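import Pool.Agent.R3B.StmtsB

set_option autoImplicit false

namespace Pool.Agent.R3B.H42

open Set Filter Topology MeasureTheory
open Pool.Agent.Helper39_Wave (phi phi_neg integral_swap_cont)
open Pool.Agent.Helper72_Shell (CharSol En psi fold bw fold_neg fold_eq)

noncomputable section

theorem prv (h1 : PydStmt) : PrvStmt := by
  intro a α ℓ P Y ha hα hℓ hBS hY hYi
  obtain ⟨hN, hP⟩ := h1 a α ℓ P Y ha hα hℓ hBS hY hYi
  -- the function N
  set N : ℝ → ℝ → ℝ := fun t y => bl α ℓ (y - t) * phi α (DD P t y) with hNdef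
  have hNc : ∀ t, 0 ≤ t → Continuous fun y => N t y := by
    intro t ht
    have e : (fun y => N t y) = (fun z : ℝ × ℝ => bl α ℓ (z.2 - z.1) * phi α (DD P z.1 z.2)) ∘
        (fun y => (t, y)) := rfl
    rw [e]
    apply hN.comp_continuous (by fun_prop)
    intro y
    exact ⟨ht, mem_univ _⟩
  have hYc : ∀ t, Continuous fun y => Y t y := fun t =>
    hY.comp (by fun_prop : Continuous fun y : ℝ => (t, y))
  have hodd : ∀ t ρ, N t (t - ρ) = -N t (t + ρ) := by
    intro t ρ
    simp only [hNdef, DD, bl]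
    rw [show t - ρ - t = -ρ by ring, show t + ρ - t = ρ by ring, fold_neg,
      show 2 * t - (t - ρ) = t + ρ by ring, show 2 * t - (t + ρ) = t - ρ by ring,
      show P t (t - ρ) - P t (t + ρ) = -(P t (t + ρ) - P t (t - ρ)) by ring, phi_neg]
    ring
  have hval : ∀ t ρ, 0 ≤ ρ → ρ ≤ ℓ →
      N t (t + ρ) = ρ ^ (-α) * phi α (P t (t + ρ) - P t (t - ρ)) := by
    intro t ρ h0 h2
    simp only [hNdef, DD, bl]
    rw [show t + ρ - t = ρ by ring, fold_eq hℓ h0 h2, show 2 * t - (t + ρ) = t - ρ by ring]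
  set F : ℝ → ℝ → ℝ := fun t y => Y t y + (a / 2) * N t y with hFdef
  have hFc : ∀ t, 0 ≤ t → Continuous fun y => F t y := fun t ht =>
    (hYc t).add (continuous_const.mul (hNc t ht))
  have hA : ∀ t r, 0 ≤ t → P t (t + r) - P t t = ∫ ρ in (0 : ℝ)..r, F t (t + ρ) := by
    intro t r ht
    rw [hP t t (t + r) ht]
    have := intervalIntegral.integral_comp_add_left (fun y => F t y) t (a := 0) (b := r)
    rw [this, add_zero]
  have hB : ∀ t r, 0 ≤ t → P t (t - r) - P t t = -∫ ρ in (0 : ℝ)..r, F t (t - ρ) := by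
    intro t r ht
    rw [hP t t (t - r) ht]
    have := intervalIntegral.integral_comp_sub_left (fun y => F t y) t (a := 0) (b := r)
    rw [this, sub_zero, intervalIntegral.integral_symm]
  have ii1 : ∀ t r, 0 ≤ t → IntervalIntegrable (fun ρ => F t (t + ρ)) volume 0 r := fun t r ht =>
    ((hFc t ht).comp (by fun_prop : Continuous fun ρ : ℝ => t + ρ)).intervalIntegrable _ _
  have ii2 : ∀ t r, 0 ≤ t → IntervalIntegrable (fun ρ => F t (t - ρ)) volume 0 r := fun t r ht =>
    ((hFc t ht).comp (by fun_prop : Continuous fun ρ : ℝ => t - ρ)).intervalIntegrable _ _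
  have c1 : ∀ t r, 0 ≤ t → P t (t + r) - P t (t - r) =
      ∫ ρ in (0 : ℝ)..r, (Y t (t + ρ) + Y t (t - ρ)) := by
    intro t r ht
    have e1 := hA t r ht
    have e2 := hB t r ht
    have e3 : ∫ ρ in (0 : ℝ)..r, (Y t (t + ρ) + Y t (t - ρ)) =
        (∫ ρ in (0 : ℝ)..r, F t (t + ρ)) + ∫ ρ in (0 : ℝ)..r, F t (t - ρ) := by
      rw [← intervalIntegral.integral_add (ii1 t r ht) (ii2 t r ht)]
      apply intervalIntegral.integral_congr
      intro ρ _
      simp only [hFdef]
      rw [hodd t ρ]
      ring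
    linarith
  refine ⟨fun t r ht _ _ => c1 t r ht, ?_, ?_⟩
  · intro t r ht hr hrl
    have e1 := hA t r ht
    have e2 := hB t r ht
    have e3 : (∫ ρ in (0 : ℝ)..r, (Y t (t + ρ) - Y t (t - ρ) +
        a * ρ ^ (-α) * phi α (P t (t + ρ) - P t (t - ρ)))) =
        (∫ ρ in (0 : ℝ)..r, F t (t + ρ)) - ∫ ρ in (0 : ℝ)..r, F t (t - ρ) := by
      rw [← intervalIntegral.integral_sub (ii1 t r ht) (ii2 t r ht)]
      apply intervalIntegral.integral_congr
      intro ρ hρ
      rw [uIcc_of_le hr] at hρ
      simp only [hFdef]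
      rw [hodd t ρ, hval t ρ hρ.1 (hρ.2.trans hrl)]
      ring
    rw [e3]
    linarith
  · intro t h r ht hh hr hrl
    have cP : ∀ s : ℝ, Continuous fun y => P s y := fun s =>
      hBS.cont.comp (by fun_prop : Continuous fun y : ℝ => (s, y))
    have j1 : IntervalIntegrable (fun ρ => P (t + h) (t + h + ρ) + P (t + h) (t + h - ρ))
        volume 0 r := by
      apply Continuous.intervalIntegrable
      exact ((cP (t + h)).comp (by fun_prop : Continuous fun ρ : ℝ => t + h + ρ)).add
        ((cP (t + h)).comp (by fun_prop : Continuous fun ρ : ℝ => t + h - ρ))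
    have j2 : IntervalIntegrable (fun ρ => P t (t + ρ) + P t (t - ρ)) volume 0 r := by
      apply Continuous.intervalIntegrable
      exact ((cP t).comp (by fun_prop : Continuous fun ρ : ℝ => t + ρ)).add
        ((cP t).comp (by fun_prop : Continuous fun ρ : ℝ => t - ρ))
    rw [← intervalIntegral.integral_sub j1 j2]
    have cG : Continuous fun z : ℝ × ℝ =>
        (fun ρ s : ℝ => Y (t + s) (t + s + ρ) + Y (t + s) (t + s - ρ)) z.1 z.2 := by
      have k1 : Continuous fun z : ℝ × ℝ => Y (t + z.2) (t + z.2 + z.1) :=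
        hY.comp (by fun_prop : Continuous fun z : ℝ × ℝ => (t + z.2, t + z.2 + z.1))
      have k2 : Continuous fun z : ℝ × ℝ => Y (t + z.2) (t + z.2 - z.1) :=
        hY.comp (by fun_prop : Continuous fun z : ℝ × ℝ => (t + z.2, t + z.2 - z.1))
      exact k1.add k2
    have e1 : ∀ ρ : ℝ, P (t + h) (t + h + ρ) + P (t + h) (t + h - ρ) -
        (P t (t + ρ) + P t (t - ρ)) =
        ∫ s in (0 : ℝ)..h, (Y (t + s) (t + s + ρ) + Y (t + s) (t + s - ρ)) := by
      intro ρ
      have m1 := hYi t h (t + ρ) ht hh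
      have m2 := hYi t h (t - ρ) ht hh
      have m3 : IntervalIntegrable (fun s => Y (t + s) (t + s + ρ)) volume 0 h := by
        apply Continuous.intervalIntegrable
        exact hY.comp (by fun_prop : Continuous fun s : ℝ => (t + s, t + s + ρ))
      have m4 : IntervalIntegrable (fun s => Y (t + s) (t + s - ρ)) volume 0 h := by
        apply Continuous.intervalIntegrable
        exact hY.comp (by fun_prop : Continuous fun s : ℝ => (t + s, t + s - ρ))
      rw [intervalIntegral.integral_add m3 m4]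
      have m5 : (∫ s in (0 : ℝ)..h, Y (t + s) (t + s + ρ)) =
          ∫ s in (0 : ℝ)..h, Y (t + s) (t + ρ + s) := by
        apply intervalIntegral.integral_congr
        intro s _
        simp only
        rw [show t + s + ρ = t + ρ + s by ring]
      have m6 : (∫ s in (0 : ℝ)..h, Y (t + s) (t + s - ρ)) =
          ∫ s in (0 : ℝ)..h, Y (t + s) (t - ρ + s) := by
        apply intervalIntegral.integral_congr
        intro s _
        simp only
        rw [show t + s - ρ = t - ρ + s by ring]
      rw [m5, m6, ← m1, ← m2, show t + h + ρ = t + ρ + h by ring,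
        show t + h - ρ = t - ρ + h by ring]
      ring
    have e2 : (∫ ρ in (0 : ℝ)..r, (P (t + h) (t + h + ρ) + P (t + h) (t + h - ρ) -
        (P t (t + ρ) + P t (t - ρ)))) =
        ∫ ρ in (0 : ℝ)..r, ∫ s in (0 : ℝ)..h, (Y (t + s) (t + s + ρ) + Y (t + s) (t + s - ρ)) := by
      apply intervalIntegral.integral_congr
      intro ρ _
      exact e1 ρ
    rw [e2, integral_swap_cont cG]
    apply intervalIntegral.integral_congr
    intro s hs
    rw [uIcc_of_le hh] at hs
    simp only
    exact (c1 (t + s) r (by linarith [hs.1])).symm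

end

end Pool.Agent.R3B.H42
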