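import Pool.Agent.R3B.StmtsL

set_option autoImplicit false

namespace Pool.Agent.R3B.H42

open Set Filter Topology MeasureTheory
open Pool.Agent.Helper39_Wave (phi)
open Pool.Agent.Helper72_Shell (CharSol En psi fold bw)

noncomputable section

theorem cos_int (ℓ : ℝ) (hℓ : 0 < ℓ) :
    ∫ y in (0 : ℝ)..(2 * ℓ), Real.cos (Real.pi / ℓ * y) ^ 2 = ℓ := by
  have hc : Real.pi / ℓ ≠ 0 := (div_pos Real.pi_pos hℓ).ne'
  have h := intervalIntegral.integral_comp_mul_left (fun y : ℝ => Real.cos y ^ 2) hc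
    (a := 0) (b := 2 * ℓ)
  have e1 : Real.pi / ℓ * (2 * ℓ) = 2 * Real.pi := by
    field_simp
  rw [h, integral_cos_sq, e1, mul_zero, Real.cos_two_pi, Real.sin_two_pi, Real.cos_zero,
    Real.sin_zero, smul_eq_mul, inv_div]
  have hp : Real.pi ≠ 0 := Real.pi_ne_zero
  field_simp
  ring

theorem brt (h1 : UrtStmt) (h2 : LimStmt) : BrtStmt := by
  intro a α ℓ ha hα hα2 hℓ
  obtain ⟨P, κ, b0, b, Pn, hBS, hUB, hini, hlim⟩ := h2 a α ℓ ha hα hℓ
  have hk0 : 0 < a / 2 * (1 + ℓ) ^ (-α) := by positivity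
  have hΛ : 0 ≤ 2 * (Real.pi / ℓ) := by
    have := Real.pi_pos
    positivity
  obtain ⟨c, C, hc, hC, hr⟩ := h1 α ℓ (a / 2 * (1 + ℓ) ^ (-α)) (a / 2) (2 * (Real.pi / ℓ)) ℓ
    hα hα2 hℓ hk0 (by positivity) hΛ hℓ
  refine ⟨P, hBS, c, C, hc, hC, ?_⟩
  intro t ht
  have hE0 : ∀ n, ℓ ≤ En ℓ (Pn n) 0 := by
    intro n
    have : En ℓ (Pn n) 0 = ℓ := by
      unfold En
      simp_rw [hini n]
      exact cos_int ℓ hℓ
    rw [this]
  have hb : ∀ n y, |Pn n t y| ≤ 1 := fun n y =>
    (hUB n).sol.abs_le_of_le le_rfl (hUB n).one t ht y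
  have hT : Tendsto (fun n => En ℓ (Pn n) t) atTop (𝓝 (En ℓ P t)) := by
    unfold En
    apply intervalIntegral.tendsto_integral_filter_of_dominated_convergence (fun _ => (1 : ℝ))
    · refine Eventually.of_forall fun n => ?_
      have hcn : Continuous fun y : ℝ => Pn n t y ^ 2 := by
        have h3 : Continuous fun y : ℝ => Pn n t y :=
          (hUB n).sol.cont.comp (by fun_prop : Continuous fun y : ℝ => (t, y))
        exact h3.pow 2
      exact hcn.aestronglyMeasurable
    · refine Eventually.of_forall fun n => Eventually.of_forall fun y _ => ?_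
      have h4 := hb n y
      rw [Real.norm_eq_abs, abs_pow]
      exact pow_le_one₀ (abs_nonneg _) h4
    · exact intervalIntegrable_const
    · refine Eventually.of_forall fun y _ => ?_
      exact (hlim t y ht).pow 2
  constructor
  · exact ge_of_tendsto hT (Eventually.of_forall fun n =>
      (hr (κ n) (b0 n) (b n) (Pn n) (hUB n) (hE0 n) t ht).1)
  · exact le_of_tendsto hT (Eventually.of_forall fun n =>
      (hr (κ n) (b0 n) (b n) (Pn n) (hUB n) (hE0 n) t ht).2)

end

end Pool.Agent.R3B.H42
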